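import Pool.Agent.Helper74.HG.GoalsG
import Pool.Agent.Helper66.HG.LIK

/-!
# Project HG, packet LIKG: all arcs modulo different powers of `t`
-/

namespace Pool.Agent.Helper69.HG.LIKG

open Pool.Agent.Helper74.HG MvPolynomial Pool.Agent.Helper55.HG.LIFT Pool.Agent.Helper66.HG.LIK

lemma jet_eqG (K : Type) [Field K] {σ : Type} {m k : ℕ} (h : k ≤ m) (f : MvPolynomial σ K) :
    JetGO K f m k = prs K σ h ⁻¹' JetG K f k := by
  ext x
  simp only [JetGO, JetG, Set.mem_ofPred_eq, Set.mem_preimage]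
  rw [← aeval_prK]
  have h1 := tpow K h 1 (by omega) (aeval x f)
  have h0 := tpow K h 0 (by omega) (aeval x f)
  rw [pow_one] at h1
  rw [pow_zero, one_mul, add_zero] at h0
  rw [h1, Ne, h0]

theorem t : Pool.Agent.Helper74.HG.LIKG := by
  intro K _ _ σ _
  refine ⟨fun m => ?_, fun f m k hk => ?_⟩
  · rw [Nat.card_fun, card_tr, Nat.card_eq_fintype_card (α := σ), ← pow_mul, Nat.mul_comm]
  · rw [jet_eqG K hk f, card_pre _ (prs_surj K σ hk), card_ker]
    rfl

end Pool.Agent.Helper69.HG.LIKG
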